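import Mathlib
import Pool.Agent.Run7.h339.Five

/-!
# Albert's problem for `p = 5` in characteristic `5`

Every division algebra of degree `5` over a field of characteristic `5` is cyclic.
-/

set_option autoImplicit false

namespace Pool.Agent.Results.MP_83bf11_al.CharFive

universe u

theorem result (F : Type u) [Field F] [CharP F 5] (D : Type u) [DivisionRing D] [Algebra F D]
    [Algebra.IsCentral F D] [FiniteDimensional F D] (hD : Module.finrank F D = 5 ^ 2) :
    ∃ (L : Type u) (_ : Field L) (_ : Algebra F L),
      IsGalois F L ∧ IsCyclic (L ≃ₐ[F] L) ∧ Module.finrank F L = 5 ∧ Nonempty (L →ₐ[F] D) :=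
  Run7.h339.cyc_five hD

end Pool.Agent.Results.MP_83bf11_al.CharFive
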