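import Mathlib
import Pool.Agent.Run7.h339.DVR2
import Pool.Agent.Run7.h339.Five

/-!
# Degree five over complete discretely valued fields

Let `R` be a complete discrete valuation ring with fraction field `K` and residue field `k`. If `k` has
characteristic `5`, then every division algebra of degree `5` over `K` is cyclic, also when `K` has
characteristic `0`. If `k` has another characteristic, the same holds as soon as it holds over `k`.
-/

set_option autoImplicit false

namespace Pool.Agent.Results.MP_83bf11_al.FiveComplete

universe u

/-- Every central division algebra of degree `p` over `F` contains a cyclic Galois extension of `F` of degree `p`. -/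
def DegreeCyclic (p : ℕ) (F : Type u) [Field F] : Prop :=
  ∀ (D : Type u) [DivisionRing D] [Algebra F D] [Algebra.IsCentral F D] [FiniteDimensional F D],
    Module.finrank F D = p ^ 2 →
      ∃ (L : Type u) (_ : Field L) (_ : Algebra F L),
        IsGalois F L ∧ IsCyclic (L ≃ₐ[F] L) ∧ Module.finrank F L = p ∧ Nonempty (L →ₐ[F] D)

theorem result (R : Type u) [CommRing R] [IsDomain R] [IsDiscreteValuationRing R]
    [IsAdicComplete (IsLocalRing.maximalIdeal R) R] (K : Type u) [Field K] [Algebra R K] [IsFractionRing R K]
    (h : (5 : IsLocalRing.ResidueField R) ≠ 0 → DegreeCyclic 5 (IsLocalRing.ResidueField R)) :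
    DegreeCyclic 5 K := by
  by_cases h5 : (5 : IsLocalRing.ResidueField R) = 0
  · have h5' : ((5 : ℕ) : IsLocalRing.ResidueField R) = 0 := by exact_mod_cast h5
    haveI : CharP (IsLocalRing.ResidueField R) 5 := (CharP.charP_iff_prime_eq_zero (by norm_num)).2 h5'
    exact Run7.h339.CycAll.dvr_five R K (fun D _ _ _ _ hD => Run7.h339.cyc_five hD)
  · exact Run7.h339.CycAll.dvr_five R K (h h5)

end Pool.Agent.Results.MP_83bf11_al.FiveComplete
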