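import Mathlib
import Pool.Agent.Run7.h339.DVR2
import Pool.Agent.Run7.h339.PRank2

/-!
# Albert's problem over iterated complete discretely valued fields

Let `p` be a prime and let `k` be a field of characteristic `p` with `[k : k^p] ≤ p`, for instance a
perfect field. Let `K` be obtained from `k` by any number of steps, each step passing from a field to
the fraction field of a complete discrete valuation ring whose residue field it is; both equal and
mixed characteristics are allowed. Then every division algebra of degree `p` over `K` is cyclic.
-/

set_option autoImplicit false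

namespace Pool.Agent.Results.MP_83bf11_al.HigherLocalFields

universe u

/-- Every central division algebra of degree `p` over `F` contains a cyclic Galois extension of `F` of degree `p`. -/
def DegreeCyclic (p : ℕ) (F : Type u) [Field F] : Prop :=
  ∀ (D : Type u) [DivisionRing D] [Algebra F D] [Algebra.IsCentral F D] [FiniteDimensional F D],
    Module.finrank F D = p ^ 2 →
      ∃ (L : Type u) (_ : Field L) (_ : Algebra F L),
        IsGalois F L ∧ IsCyclic (L ≃ₐ[F] L) ∧ Module.finrank F L = p ∧ Nonempty (L →ₐ[F] D)

/-- Iterated complete discretely valued fields over a field `k` of characteristic `p` with `[k : k^p] ≤ p`,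
that is, `k` is spanned over `k^p` by the powers `x^i`, `i < p`, of one element `x`. -/
inductive IteratedComplete (p : ℕ) : (K : Type u) → Field K → Prop
  | base (k : Type u) (hk : Field k) (hchar : CharP k p) (x : k)
      (hx : ∀ y : k, ∃ c : Fin p → k, y = ∑ i : Fin p, c i ^ p * x ^ (i : ℕ)) :
      IteratedComplete p k hk
  | step (R : Type u) [CommRing R] [IsDomain R] [IsDiscreteValuationRing R]
      [IsAdicComplete (IsLocalRing.maximalIdeal R) R] (K : Type u) (hK : Field K) [Algebra R K]
      [IsFractionRing R K] (h : IteratedComplete p (IsLocalRing.ResidueField R) inferInstance) :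
      IteratedComplete p K hK

theorem aux {p : ℕ} (hp : p.Prime) {K : Type u} {hK : Field K} (h : IteratedComplete p K hK) :
    Run7.h339.CycAll p K ∧ ((p : K) = 0 → Run7.h339.PC p K) := by
  induction h with
  | base k hk hchar x hx =>
    haveI : ExpChar k p := ExpChar.prime hp
    have h1 : Run7.h339.PR1 p k := Run7.h339.PR1.of_gen hx
    exact ⟨Run7.h339.CycAll.of_pr hp h1, fun _ => Run7.h339.PC.of_pr hp h1⟩
  | step R K hK h ih =>
    by_cases h0 : (p : IsLocalRing.ResidueField R) = 0
    · refine ⟨Run7.h339.cyc_wild R K hp h0 (ih.2 h0), fun _ => ?_⟩
      haveI : CharP (IsLocalRing.ResidueField R) p := (CharP.charP_iff_prime_eq_zero hp).2 h0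
      refine Run7.h339.PC.dvr R K hp ?_ (ih.2 h0)
      intro j hj1 hj2 hj3
      rw [CharP.cast_eq_zero_iff _ p] at hj3
      exact absurd (Nat.le_of_dvd hj1 hj3) (by omega)
    · refine ⟨Run7.h339.CycAll.dvr R K hp h0 ih.1, fun h1 => ?_⟩
      exfalso
      apply h0
      have h2 : (p : R) = 0 := by
        apply IsFractionRing.injective R K
        rw [map_natCast, map_zero]
        exact h1
      rw [← map_natCast (IsLocalRing.residue R), h2, map_zero]

theorem result (p : ℕ) (hp : p.Prime) (K : Type u) [hK : Field K] (h : IteratedComplete p K hK) :
    DegreeCyclic p K :=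
  (aux hp h).1

end Pool.Agent.Results.MP_83bf11_al.HigherLocalFields
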