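import Mathlib
import Pool.Agent.Run7.h339.SolvT

/-!
# Degree `p` over fields of characteristic `p`: a solvable maximal subfield suffices

A division algebra of prime degree `p` over a field of characteristic `p` is cyclic as soon as it has a
noncentral element whose minimal polynomial has solvable Galois group.
-/

set_option autoImplicit false

namespace Pool.Agent.Results.MP_83bf11_al.SolvableSubfield

universe u

/-- `D` contains a cyclic Galois extension of `F` of degree `p`. -/
def HasCyclicSubfield (p : ℕ) (F D : Type u) [Field F] [DivisionRing D] [Algebra F D] : Prop :=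
  ∃ (L : Type u) (_ : Field L) (_ : Algebra F L),
    IsGalois F L ∧ IsCyclic (L ≃ₐ[F] L) ∧ Module.finrank F L = p ∧ Nonempty (L →ₐ[F] D)

theorem result (p : ℕ) (hp : p.Prime) (F : Type u) [Field F] [CharP F p] (D : Type u) [DivisionRing D]
    [Algebra F D] [Algebra.IsCentral F D] [FiniteDimensional F D] (hD : Module.finrank F D = p ^ 2) :
    HasCyclicSubfield p F D ↔
      ∃ x : D, x ∉ Set.range (algebraMap F D) ∧ IsSolvable (minpoly F x).Gal := by
  constructor
  · intro h
    exact Run7.h339.solvable_of_cyc hp h
  · rintro ⟨x, hx, hs⟩
    exact Run7.h339.cyc_of_solvable hp hD hx hs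

end Pool.Agent.Results.MP_83bf11_al.SolvableSubfield
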